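import Pool.Agent.Helper59.OT.Num
import Pool.Agent.Helper67.OT.LiftCore
import Pool.Agent.Helper88.OT.Key

/-!
# Holomorphic `ℂ`-actions on finite covers of the Oeljeklaus–Toma threefold are trivial

Core form: the facts on `pr` and the cocompactness of the lattice are hypotheses, to be
instantiated with `pr_covering`, `pr_localDiffeomorph` and `Lat_cover`.
-/

open scoped Manifold ContDiff Topology unitInterval
open Set Filter

noncomputable section

namespace HolPH.OT

theorem preconnectedSpace_X : PreconnectedSpace X :=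
  Subtype.preconnectedSpace convex_X.isPreconnected

theorem transl_pow (a : Lat) (d : ℕ) : ((⟨0, a⟩ : Gam) ^ d).n = 0 ∧
    (((⟨0, a⟩ : Gam) ^ d).a : C3) = (d : ℤ) • (a : C3) := by
  induction d with
  | zero => simp
  | succ d ih =>
    rw [pow_succ]
    refine ⟨by simp [ih.1], ?_⟩
    rw [mul_a, ih.1, ih.2]
    simp only [zpow_zero, Units.val_one, one_mul, Nat.cast_succ, add_smul, one_smul]
    exact add_comm _ _

theorem dil_pow (d : ℕ) : ((⟨1, 0⟩ : Gam) ^ d).n = d ∧ (((⟨1, 0⟩ : Gam) ^ d).a : C3) = 0 := by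
  induction d with
  | zero => simp
  | succ d ih =>
    rw [pow_succ]
    refine ⟨by simp [ih.1], ?_⟩
    rw [mul_a, ih.2]
    simp

/-- `u ^ d - 1` is invertible -/
theorem eq_zero_of_u_pow_mul {d : ℕ} (hd : 1 ≤ d) {c : C3}
    (h : ((u ^ (d : ℤ) : C3ˣ) : C3) * c = c) : c = 0 := by
  have aux : ∀ (w z : ℂ), ‖w‖ ≠ 1 → w ^ (d : ℤ) * z = z → z = 0 := by
    intro w z hw hz
    by_contra hz0
    have h1 : w ^ (d : ℤ) = 1 := mul_right_cancel₀ hz0 (hz.trans (one_mul z).symm)
    have h2 : ‖w‖ ^ d = 1 := by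
      rw [← norm_pow, ← zpow_natCast, h1, norm_one]
    exact hw ((pow_eq_one_iff_of_nonneg (norm_nonneg _) (by omega)).1 h2)
  have h1 : ‖(u : C3).1‖ ≠ 1 := by
    rw [u_fst, Complex.norm_real, Real.norm_of_nonneg U1_pos.le]
    exact one_lt_U1.ne'
  have h2 : ‖(u : C3).2.1‖ ≠ 1 := U2_lt_one.ne
  have h3 : ‖(u : C3).2.2‖ ≠ 1 := U3_lt_one.ne
  refine Prod.ext ?_ (Prod.ext ?_ ?_)
  · refine aux _ _ h1 ?_
    rw [← zpow_fst]
    exact congrArg Prod.fst h
  · refine aux _ _ h2 ?_
    rw [← zpow_snd_fst]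
    exact congrArg (fun x : C3 => x.2.1) h
  · refine aux _ _ h3 ?_
    rw [← zpow_snd_snd]
    exact congrArg (fun x : C3 => x.2.2) h

section

set_option linter.unusedSectionVars false
set_option linter.unusedVariables false

variable [IsCancelSMul Gam X] [ProperlyDiscontinuousSMul Gam X]
  {M' : Type*} [TopologicalSpace M'] [ChartedSpace C3 M'] [IsManifold I3 ω M']
  {p : M' → M}

/-- continuous maps to `X` whose composition with `pr` is holomorphic are holomorphic -/
theorem contMDiff_of_pr (pr_localDiffeomorph : IsLocalDiffeomorph I3 I3 ω pr) {ψ : X → X}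
    (hψ : Continuous ψ)
    (h : ContMDiff I3 I3 ω (fun x => pr (ψ x))) : ContMDiff I3 I3 ω ψ := by
  intro x
  have hl := pr_localDiffeomorph (ψ x)
  have h1 : ∀ᶠ y in 𝓝 x, hl.localInverse (pr (ψ y)) = ψ y :=
    hψ.continuousAt.eventually hl.localInverse_eventuallyEq_left
  have h2 : ContMDiffAt I3 I3 ω (fun y => hl.localInverse (pr (ψ y))) x :=
    hl.localInverse_contMDiffAt.comp x (h x)
  exact h2.congr_of_eventuallyEq (h1.mono fun y hy => hy.symm)

/-- every holomorphic action of `ℂ` on a finite cover of `M` is trivial -/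
theorem action_trivial_core (pr_covering : IsCoveringMap pr)
    (pr_localDiffeomorph : IsLocalDiffeomorph I3 I3 ω pr)
    (Lat_cover : ∃ D : ℝ, 0 < D ∧ ∀ t : C3, t.1.im = 0 → ∃ a ∈ Lat, ‖t - a‖ ≤ D)
    (hp : IsFiniteCover p) (φ : ℂ → M' → M') (φ0 : ∀ x, φ 0 x = x)
    (φadd : ∀ s t x, φ (s + t) x = φ s (φ t x))
    (φh : ContMDiff (𝓘(ℂ, ℂ).prod I3) I3 ω (fun a : ℂ × M' => φ a.1 a.2)) (s : ℂ) (x : M') :
    φ s x = x := by
  classical
  have _ := preconnectedSpace_X
  obtain ⟨x0, q, hqc, hq, rfl⟩ := exists_lift_core pr_covering.continuous hp x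
  obtain ⟨d, hd, hper⟩ := lift_period_core hp hqc hq
  have hql := lift_localDiffeomorph_core pr_localDiffeomorph hp hqc hq
  have hpc : Continuous p := hp.covering.continuous
  have hφc : Continuous (fun a : ℂ × M' => φ a.1 a.2) := φh.continuous
  -- the main claim
  have main : ∀ (s : ℂ) (x : X), p (φ s (q x)) = pr x := by
    intro s
    let H : C(I × X, M) := ⟨fun a => p (φ (((a.1 : ℝ) : ℂ) * s) (q a.2)), by
      refine hpc.comp (hφc.comp (Continuous.prodMk ?_ (hqc.comp continuous_snd)))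
      exact ((Complex.continuous_ofReal.comp (continuous_subtype_val.comp continuous_fst)).mul
        continuous_const)⟩
    have H0 : ∀ a : X, H (0, a) = pr (ContinuousMap.id X a) := by
      intro a
      change p (φ (((0 : ℝ) : ℂ) * s) (q a)) = pr a
      rw [Complex.ofReal_zero, zero_mul, φ0, hq]
    let Ψ : C(I × X, X) := pr_covering.liftHomotopy H (ContinuousMap.id X) H0
    have hΨ : ∀ a, pr (Ψ a) = H a := fun a =>
      congrFun (pr_covering.liftHomotopy_lifts H (ContinuousMap.id X) H0) a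
    have hΨ0 : ∀ a, Ψ (0, a) = a := fun a =>
      pr_covering.liftHomotopy_zero H (ContinuousMap.id X) H0 a
    -- equivariance
    have hequiv : ∀ (g : Gam) (t : I) (x : X), Ψ (t, g ^ d • x) = g ^ d • Ψ (t, x) := by
      intro g t x
      have hc1 : Continuous fun a : I × X => Ψ (a.1, g ^ d • a.2) :=
        Ψ.continuous.comp (continuous_fst.prodMk (continuous_snd.const_smul (g ^ d)))
      have hc2 : Continuous fun a : I × X => g ^ d • Ψ a := Ψ.continuous.const_smul (g ^ d)
      have he : pr ∘ (fun a : I × X => Ψ (a.1, g ^ d • a.2)) = pr ∘ (fun a : I × X => g ^ d • Ψ a) := by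
        funext a
        change pr (Ψ (a.1, g ^ d • a.2)) = pr (g ^ d • Ψ a)
        rw [hΨ, pr_smul, hΨ]
        change p (φ (((a.1 : ℝ) : ℂ) * s) (q (g ^ d • a.2))) = p (φ (((a.1 : ℝ) : ℂ) * s) (q a.2))
        rw [hper]
      have h0 : (fun a : I × X => Ψ (a.1, g ^ d • a.2)) (0, x) = (fun a : I × X => g ^ d • Ψ a) (0, x) := by
        change Ψ (0, g ^ d • x) = g ^ d • Ψ (0, x)
        rw [hΨ0, hΨ0]
      exact congrFun (pr_covering.eq_of_comp_eq hc1 hc2 he (0, x) h0) (t, x)
    let ψ : X → X := fun x => Ψ (1, x)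
    have hψc : Continuous ψ := Ψ.continuous.comp (continuous_const.prodMk continuous_id)
    have hψp : ∀ x, pr (ψ x) = p (φ s (q x)) := by
      intro x
      rw [hΨ]
      change p (φ (((1 : ℝ) : ℂ) * s) (q x)) = _
      rw [Complex.ofReal_one, one_mul]
    have hψe : ∀ (g : Gam) (x : X), ψ (g ^ d • x) = g ^ d • ψ x := fun g x => hequiv g 1 x
    -- `ψ` is holomorphic
    have hψh : ContMDiff I3 I3 ω ψ := by
      refine contMDiff_of_pr pr_localDiffeomorph hψc ?_
      have h1 : ContMDiff I3 I3 ω (fun x : X => p (φ s (q x))) := by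
        refine hp.localDiffeomorph.contMDiff.comp ?_
        exact φh.comp (contMDiff_const.prodMk hql.contMDiff)
      exact h1.congr fun x => hψp x
    -- difference
    let G : C3 → C3 := fun x => if h : x ∈ X then (ψ ⟨x, h⟩ : C3) - x else 0
    have hGX : ∀ x : X, G x = (ψ x : C3) - x := fun x => by
      change (if h : (x : C3) ∈ X then (ψ ⟨x, h⟩ : C3) - x else 0) = _
      rw [dif_pos x.2]
    have hGd : DifferentiableOn ℂ G X := by
      intro x hx
      have h1 : ContMDiffAt I3 I3 ω (fun y : X => G y) ⟨x, hx⟩ := by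
        have h2 : ContMDiff I3 I3 ω (fun y : X => (ψ y : C3) - y) :=
          (contMDiff_subtype_val.comp hψh).sub contMDiff_subtype_val
        exact (h2 ⟨x, hx⟩).congr_of_eventuallyEq (Eventually.of_forall fun y => hGX y)
      have h3 : ContMDiffAt I3 I3 ω G x := contMDiffAt_subtype_iff.1 h1
      exact (h3.contDiffAt.differentiableAt (by simp)).differentiableWithinAt
    have hGp : ∀ a ∈ Lat, ∀ x ∈ X, G (x + (d : ℤ) • a) = G x := by
      intro a ha x hx
      obtain ⟨e1, e2⟩ := transl_pow ⟨a, ha⟩ d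
      have hact : ∀ y : X, (((⟨0, ⟨a, ha⟩⟩ : Gam) ^ d • y : X) : C3) = y + (d : ℤ) • a := by
        intro y
        rw [smul_coe, e1, e2, zpow_zero, Units.val_one, one_mul]
      have e3 := hψe ⟨0, ⟨a, ha⟩⟩ ⟨x, hx⟩
      have e4 := hGX ((⟨0, ⟨a, ha⟩⟩ : Gam) ^ d • ⟨x, hx⟩)
      rw [hact, e3, hact] at e4
      rw [e4, hGX ⟨x, hx⟩]
      abel
    have hconst := key_of_cover Lat_cover G hGd d hd hGp
    -- the constant vanishes
    intro x
    have hc : G x = 0 := by
      refine eq_zero_of_u_pow_mul hd ?_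
      obtain ⟨e1, e2⟩ := dil_pow d
      have hact : ∀ y : X, (((⟨1, 0⟩ : Gam) ^ d • y : X) : C3) = ((u ^ (d : ℤ) : C3ˣ) : C3) * y := by
        intro y
        rw [smul_coe, e1, e2, add_zero]
      have e3 := hψe ⟨1, 0⟩ x
      have e4 := hGX ((⟨1, 0⟩ : Gam) ^ d • x)
      rw [e3, hact, hact] at e4
      have e5 : G (((u ^ (d : ℤ) : C3ˣ) : C3) * x) = G x := by
        rw [← hact x]
        exact hconst _ (Subtype.mem _) _ x.2
      rw [e5] at e4
      rw [← mul_sub, ← hGX x] at e4
      exact e4.symm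
    have h5 : (ψ x : C3) = x := sub_eq_zero.1 ((hGX x).symm.trans hc)
    rw [← hψp, Subtype.ext h5]
  -- conclusion
  have hc1 : Continuous fun s : ℂ => φ s (q x0) :=
    hφc.comp (continuous_id.prodMk continuous_const)
  have h1 := hp.covering.const_of_comp hc1 (fun a a' => (main a x0).trans (main a' x0).symm) s 0
  rw [h1, φ0]

end

end HolPH.OT
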